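import Mathlib
import Pool.Agent.H764R3.Space

/-!
# A Tychonoff space which is not d-separable and whose square is D-separable (in ZFC)

`Code` is the countably closed partial order of the countable partial 0-1 functions on the set of
0-1 sequences, and `K` is a well-ordered set whose order type is the successor cardinal of the
cardinality of `Code`. With Ulam matrices we split the points of `K` of countable cofinality into
stationary sets indexed by `Code`; this gives `h : K → Code`. The points of the space are the closed
subsets of `K` with a last element, whose points carry increasing labels from `Code`, such that all
labels below a limit point `δ` are below `h δ`; they form a tree under end-extension, and the cones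
and their complements generate the topology. An infinite game (with the small set of codes as
parameters) shows that the tree is countably distributive, so that no countable union of discrete
sets is dense. On the other hand two nodes with incompatible labels have no common limit points
above these labels, and so the alternating sequence of two such nodes is finite; this gives a dense
subset of the square of the tree which is a countable union of antichains, hence a sigma-disjoint
pi-base of the square of the space.
-/

set_option autoImplicit false

open Set Topology

namespace Pool.Agent.Results.MP_4cef1b_gt.SquareOfNonDSeparable

open Pool.Agent.H764R3.Tree

/-- There is a zero-dimensional Tychonoff space which is not d-separable (it has no dense subset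
which is a countable union of discrete subspaces) and whose square is D-separable (from every
sequence of dense subsets one can choose discrete subsets with dense union). -/
theorem result : ∃ (X : Type) (_ : TopologicalSpace X), T35Space X ∧
    TopologicalSpace.IsTopologicalBasis {U : Set X | IsClopen U} ∧
    ¬ (∃ F : ℕ → Set X, (∀ n, DiscreteTopology (F n)) ∧ Dense (⋃ n, F n)) ∧
    (∀ D : ℕ → Set (X × X), (∀ n, Dense (D n)) →
      ∃ F : ℕ → Set (X × X), (∀ n, F n ⊆ D n ∧ DiscreteTopology (F n)) ∧ Dense (⋃ n, F n)) :=
  ⟨Node, inferInstance, inferInstance, isTopologicalBasis_isClopen, not_dSeparableWeak,
    dSeparable_square⟩

end Pool.Agent.Results.MP_4cef1b_gt.SquareOfNonDSeparable
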